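import Pool.Agent.N207.CP.Main
import Pool.Agent.N212.Fin.B5
import Pool.Agent.N212.Fin.B6
import Pool.Agent.N212.R2
import Pool.Agent.N212.S4
import Pool.Agent.N212.V5

set_option autoImplicit false

/-!
A projective surface whose perfect complexes come from a finite-dimensional DG algebra and which
has no stratification by open subschemes of affine spaces.
-/

open CategoryTheory AlgebraicGeometry

namespace Pool.Agent.Results.MP_77656e_ag.NoStratification

open Pool.Agent.N212 Pool.Agent.W506 Pool.Agent.W456

attribute [local instance] HasDerivedCategory.standard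

/-- Over every field of characteristic zero there is an integral projective scheme whose DG
category of perfect complexes is quasi-equivalent to the DG category of perfect DG modules over a
finite-dimensional DG algebra, and which has no stratification by open subschemes of affine
spaces. -/
theorem result (K : Type) [Field K] [CharZero K] :
    ∃ (Z : Scheme.{0}) (π : Z ⟶ Spec (CommRingCat.of K)) (n : ℕ) (i : Z ⟶ PP K n)
      (L : Linear K Z.Modules) (R : Fin.DGAlg.{0, 0} K), IsClosedImmersion i ∧
      i ≫ toK K n = π ∧ IsIntegral Z ∧ Fin.IsLinOver π L ∧ R.IsFiniteDimensional ∧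
      Fin.QuasiEquivalent (Fin.InjDG K Z.Modules (isPerfect Z)) (Fin.PerfDG R) ∧
      ¬ Fin.HasAffineStratification K π := by
  obtain ⟨n, i, hi, hi'⟩ := Pool.Agent.N207.CP.stmProj K (cu K) (cg K) fun _ ha => zero_deg ha
  let _ : Linear K (Zs K).Modules := linMod (pr0 (cg K))
  have h := dg_aux K (isLin_linMod _)
  exact ⟨Zs K, pr0 (cg K), n, i, linMod (pr0 (cg K)), Fin.convA (RR K), hi, hi', inferInstance,
    Fin.isLinOver_linMod _, Fin.finite_convA (finite_RR K), Fin.quasiEquivalent_conv h,
    fun hs => no_strat K (Fin.strat_of K _ hs)⟩

end Pool.Agent.Results.MP_77656e_ag.NoStratification
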